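import Pool.Agent.TH377.Sup.EmbR

/-!
# The local data at a good place

The proofs are those of `Pool.Agent.TH377.Sup.fine_val` and `Pool.Agent.TH377.Sup.fine_embR`.
-/

set_option autoImplicit false

namespace Pool.Agent.N339.BL

open Polynomial WithZero NumberField IsDedekindDomain Pool.Agent.W858.SF Pool.Agent.TH377.Sup

universe u v w x y z

/-- there is a discrete valuation ring of `k` with finite residue field of odd characteristic at which
`a` has valuation one or minus one, and `f` has an irreducible reduction of degree `d` -/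
def LocData {k : Type} [Field k] (d : ℕ) (a : k) (f : k[X]) : Prop :=
  ∃ (R : Type) (_ : CommRing R) (_ : IsDomain R) (_ : IsDiscreteValuationRing R) (_ : Algebra R k)
    (_ : IsFractionRing R k) (g : R[X]), Finite (IsLocalRing.ResidueField R) ∧ IsUnit (2 : R) ∧
    IsUnit g.leadingCoeff ∧ (g.map (IsLocalRing.residue R)).Separable ∧
    Irreducible (g.map (IsLocalRing.residue R)) ∧ (g.map (IsLocalRing.residue R)).natDegree = d ∧
    g.map (algebraMap R k) = f ∧ ∃ (ϖ t : R) (m : ℤ), Irreducible ϖ ∧ IsUnit t ∧
    (m = 1 ∨ m = -1) ∧ a = algebraMap R k t * algebraMap R k ϖ ^ m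

/-- irreducible reduction in a field embedded into a discretely valued field; compare
`Pool.Agent.TH377.Sup.fine_val` -/
theorem data_val {k : Type} {E : Type x} [Field k] [CharZero k] [Field E]
    (V : Valuation E ℤᵐ⁰) [Finite (IsLocalRing.ResidueField V.valuationSubring)] (ψ : k →+* E)
    (g : k[X]) (gB : V.valuationSubring[X])
    (hg : gB.map (algebraMap V.valuationSubring E) = g.map ψ) (hlc : IsUnit gB.leadingCoeff)
    (hirr : Irreducible (gB.map (IsLocalRing.residue V.valuationSubring)))
    (h2 : V (2 : E) = 1)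
    (a : k) (ha : V (ψ a) = exp (-1)) : LocData g.natDegree a g := by
  classical
  obtain ⟨hdvr, ϖ, t, n, hϖ, ht, hn, hat⟩ := Pool.Agent.W858.SF.exists_unif (V.comap ψ) a (-1)
    (by decide) ha
  let i : (V.comap ψ).valuationSubring →+* V.valuationSubring :=
    { toFun := fun y => ⟨ψ y, y.2⟩
      map_one' := Subtype.ext (map_one ψ)
      map_mul' := fun y z => Subtype.ext (map_mul ψ _ _)
      map_zero' := Subtype.ext (map_zero ψ)
      map_add' := fun y z => Subtype.ext (map_add ψ _ _) }
  have hcoe : ∀ y, ((i y : V.valuationSubring) : E) = ψ (y : k) := fun _ => rfl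
  have hinj : Function.Injective i := by
    intro y z hyz
    apply Subtype.ext
    apply ψ.injective
    have := congrArg Subtype.val hyz
    exact this
  have hloc : IsLocalHom i := by
    refine ⟨fun y hy => ?_⟩
    have h1 := (Valuation.Integers.isUnit_iff_valuation_eq_one
      (Valuation.valuationSubring.integers V)).1 hy
    exact (Valuation.Integers.isUnit_iff_valuation_eq_one
      (Valuation.valuationSubring.integers (V.comap ψ))).2 h1
  have hfin : Finite (IsLocalRing.ResidueField (V.comap ψ).valuationSubring) :=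
    Finite.of_injective _ (IsLocalRing.ResidueField.map i).injective
  obtain ⟨f, hf⟩ : ∃ f : (V.comap ψ).valuationSubring[X],
      f.map (algebraMap (V.comap ψ).valuationSubring k) = g := by
    have h1 : g ∈ Polynomial.lifts (algebraMap (V.comap ψ).valuationSubring k) := by
      rw [Polynomial.lifts_iff_coeff_lifts]
      intro j
      have h3 : ψ (g.coeff j) = (gB.coeff j : E) := by
        have := congrArg (fun q => q.coeff j) hg
        simp only [coeff_map] at this
        exact this.symm
      exact ⟨⟨g.coeff j, by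
        change V (ψ (g.coeff j)) ≤ 1
        rw [h3]
        exact (gB.coeff j).2⟩, rfl⟩
    obtain ⟨f, hf⟩ := (Polynomial.mem_lifts _).1 h1
    exact ⟨f, hf⟩
  have hfB : f.map i = gB := by
    apply Polynomial.map_injective (algebraMap V.valuationSubring E) Subtype.val_injective
    rw [hg, ← hf, Polynomial.map_map, Polynomial.map_map]
    rfl
  have hdeg : f.natDegree = g.natDegree := by
    rw [← hf]
    exact (natDegree_map_eq_of_injective Subtype.val_injective f).symm
  have hlcf : IsUnit f.leadingCoeff := by
    have h1 : i f.leadingCoeff = gB.leadingCoeff := by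
      rw [← hfB]
      exact (leadingCoeff_map_of_injective hinj f).symm
    rw [← h1] at hlc
    exact hloc.map_nonunit _ hlc
  have hfi : Irreducible (f.map (IsLocalRing.residue (V.comap ψ).valuationSubring)) := by
    refine irr_of_map (IsLocalRing.ResidueField.map i) _ ?_
    rw [Polynomial.map_map, IsLocalRing.ResidueField.map_comp_residue, ← Polynomial.map_map, hfB]
    exact hirr
  have hdegr : (f.map (IsLocalRing.residue (V.comap ψ).valuationSubring)).natDegree =
      g.natDegree := by
    rw [← hdeg]
    exact natDegree_map_of_leadingCoeff_ne_zero _ (hlcf.map _).ne_zero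
  have hsf : (f.map (IsLocalRing.residue (V.comap ψ).valuationSubring)).Separable := by
    have hperf : PerfectField (IsLocalRing.ResidueField (V.comap ψ).valuationSubring) :=
      inferInstance
    exact PerfectField.separable_of_irreducible hfi
  have hak : a = algebraMap (V.comap ψ).valuationSubring k t *
      algebraMap (V.comap ψ).valuationSubring k ϖ ^ n := hat
  have hn1 : n = 1 ∨ n = -1 := by
    have e1 : V (ψ (t : k)) = 1 := (Valuation.Integers.isUnit_iff_valuation_eq_one
      (Valuation.valuationSubring.integers (V.comap ψ))).1 ht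
    have e2 : ψ (ϖ : k) ≠ 0 := by
      rw [Ne, map_eq_zero]
      intro h
      exact hϖ.ne_zero (Subtype.ext h)
    have e3 : V (ψ (ϖ : k)) = exp (log (V (ψ (ϖ : k)))) :=
      (exp_log ((Valuation.ne_zero_iff V).2 e2)).symm
    have e4 : V (ψ a) = exp (n * log (V (ψ (ϖ : k)))) := by
      rw [hat, map_mul, map_mul, map_zpow₀, map_zpow₀, e1, one_mul]
      conv_lhs => rw [e3]
      rw [← exp_zsmul, smul_eq_mul]
    rw [ha, exp_inj] at e4
    have e5 : IsUnit n := by
      refine IsUnit.of_mul_eq_one (-log (V (ψ (ϖ : k)))) ?_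
      rw [mul_neg, ← e4]
      norm_num
    exact Int.isUnit_iff.1 e5
  have h2A : IsUnit (2 : (V.comap ψ).valuationSubring) := by
    refine (Valuation.Integers.isUnit_iff_valuation_eq_one
      (Valuation.valuationSubring.integers (V.comap ψ))).2 ?_
    change V (ψ 2) = 1
    rw [map_ofNat, h2]
  exact ⟨(V.comap ψ).valuationSubring, inferInstance, inferInstance, hdvr, inferInstance,
    inferInstance, f, hfin, h2A, hlcf, hsf, hfi, hdegr, hf, ϖ, t, n, hϖ, ht, hn1, hak⟩

/-- the data for the coefficients close to good ones -/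
theorem data_embR {L : Type x} [Field L] [NumberField L] (v : HeightOneSpectrum (𝓞 L))
    {R : Type z} [CommRing R] {k : Type} [Field k] [CharZero k] [Algebra R k]
    (P : R →+* L) (ψ : k →+* v.adicCompletion L)
    (hPint : ∀ r, v.valuation L (P r) ≤ 1)
    (hψ : ∀ r, vv v (ψ (algebraMap R k r) - algebraMap L (v.adicCompletion L) (P r)) ≤ exp (-2))
    (h2 : (2 : 𝓞 L) ∉ v.asIdeal) {d : ℕ} (c : Fin (d + 2) → R)
    (y : Fin (d + 2) → 𝓞 L)
    (hcy : ∀ i, v.valuation L (P (c i) - algebraMap (𝓞 L) L (y i)) ≤ exp (-2))
    (hy : y 0 ∈ v.asIdeal) (hy' : y 0 ∉ v.asIdeal ^ 2) (hirr : IrrMod v d fun i => y i.succ) :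
    LocData d (algebraMap R k (c 0))
      (pol fun i : Fin (d + 1) => algebraMap R k (c i.succ)) := by
  classical
  have hfinres := finite_residue v
  have hmax : v.asIdeal.IsMaximal := v.isMaximal
  let _ := Ideal.Quotient.field v.asIdeal
  obtain ⟨θ, hθ, hθr⟩ := exists_residue_map v
  have hθinj : Function.Injective θ := θ.injective
  have hγ2 : (exp (-2) : ℤᵐ⁰) < 1 := by
    rw [← exp_zero, exp_lt_exp]
    omega
  have hPv : ∀ r, vv v (algebraMap L (v.adicCompletion L) (P r)) ≤ 1 := fun r => by
    rw [vv_algebraMap]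
    exact hPint r
  have hψ1 : ∀ r, vv v (ψ (algebraMap R k r)) ≤ 1 := by
    intro r
    have h1 : ψ (algebraMap R k r) = (ψ (algebraMap R k r) -
      algebraMap L (v.adicCompletion L) (P r)) + algebraMap L (v.adicCompletion L) (P r) := by ring
    rw [h1]
    exact (Valuation.map_add _ _ _).trans (max_le ((hψ r).trans hγ2.le) (hPv r))
  have hnear : ∀ i, vv v (ψ (algebraMap R k (c i)) -
      algebraMap L (v.adicCompletion L) (algebraMap (𝓞 L) L (y i))) ≤ exp (-2) := by
    intro i
    have h1 : ψ (algebraMap R k (c i)) -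
        algebraMap L (v.adicCompletion L) (algebraMap (𝓞 L) L (y i)) =
        (ψ (algebraMap R k (c i)) - algebraMap L (v.adicCompletion L) (P (c i))) +
        algebraMap L (v.adicCompletion L) (P (c i) - algebraMap (𝓞 L) L (y i)) := by
      rw [map_sub]
      ring
    rw [h1]
    refine (Valuation.map_add _ _ _).trans (max_le (hψ _) ?_)
    rw [vv_algebraMap]
    exact hcy i
  let cB : Fin (d + 1) → (vv v).valuationSubring := fun i => ⟨ψ (algebraMap R k (c i.succ)), hψ1 _⟩
  have hres : ∀ i, IsLocalRing.residue _ (cB i) = θ (Ideal.Quotient.mk v.asIdeal (y i.succ)) := by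
    intro i
    exact hθr _ _ ((hnear i.succ).trans_lt hγ2)
  have hlast : IsUnit (cB (Fin.last d)) := by
    have h5 : cB (Fin.last d) ∉ IsLocalRing.maximalIdeal (vv v).valuationSubring := by
      intro h6
      have h7 : IsLocalRing.residue _ (cB (Fin.last d)) = 0 :=
        (IsLocalRing.residue_eq_zero_iff _).2 h6
      rw [hres, map_eq_zero_iff _ hθinj, Ideal.Quotient.eq_zero_iff_mem] at h7
      exact hirr.1 h7
    by_contra h6
    exact h5 ((IsLocalRing.mem_maximalIdeal _).2 h6)
  have hlast0 : cB (Fin.last d) ≠ 0 := hlast.ne_zero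
  have hck : algebraMap R k (c (Fin.last d).succ) ≠ 0 := by
    intro h0
    apply hlast0
    apply Subtype.ext
    change ψ (algebraMap R k (c (Fin.last d).succ)) = 0
    rw [h0, map_zero]
  have ha : vv v (ψ (algebraMap R k (c 0))) = exp (-1) := by
    have h5 : ψ (algebraMap R k (c 0)) = (ψ (algebraMap R k (c 0)) -
      algebraMap L (v.adicCompletion L) (algebraMap (𝓞 L) L (y 0))) +
      algebraMap L (v.adicCompletion L) (algebraMap (𝓞 L) L (y 0)) := by ring
    have h7 := val_eq_of v (y 0) hy hy'
    have h6 : vv v (ψ (algebraMap R k (c 0)) - algebraMap L (v.adicCompletion L)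
        (algebraMap (𝓞 L) L (y 0))) <
        vv v (algebraMap L (v.adicCompletion L) (algebraMap (𝓞 L) L (y 0))) := by
      rw [vv_algebraMap, h7]
      refine (hnear 0).trans_lt ?_
      rw [exp_lt_exp]
      omega
    rw [h5, Valuation.map_add_eq_of_lt_right _ h6, vv_algebraMap, h7]
  have key := data_val (vv v) ψ
    (pol fun i : Fin (d + 1) => algebraMap R k (c i.succ)) (pol cB) ?_ ?_ ?_ ?_ _ ha
  · rwa [pol_natDegree _ hck] at key
  · rw [pol_map, pol_map]
    rfl
  · rw [pol_leadingCoeff _ hlast0]
    exact hlast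
  · have h4 : (pol cB).map (IsLocalRing.residue (vv v).valuationSubring) =
        (pol fun i : Fin (d + 1) => Ideal.Quotient.mk v.asIdeal (y i.succ)).map θ := by
      rw [pol_map, pol_map]
      simp only [hres]
    rw [h4]
    exact (MulEquiv.irreducible_iff (Polynomial.mapEquiv
      (RingEquiv.ofBijective θ ⟨hθinj, hθ⟩)).toMulEquiv).2 hirr.2
  · have h5 : (2 : v.adicCompletion L) =
        algebraMap L (v.adicCompletion L) (algebraMap (𝓞 L) L 2) := by
      rw [map_ofNat, map_ofNat]
    rw [h5, vv_algebraMap]
    exact (HeightOneSpectrum.valuation_eq_one_iff_notMem v).2 h2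

end Pool.Agent.N339.BL
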