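import Pool.Agent.N339.BS.All
import Pool.Agent.N339.BL.Data

/-!
# One exceptional set for all finitely generated fields, for the local data
-/

set_option autoImplicit false

namespace Pool.Agent.N339.BL

open Finset Polynomial WithZero NumberField IsDedekindDomain Pool.Agent.W858.SF Pool.Agent.W858.SG
open Pool.Agent.TH377.Sup Pool.Agent.N666.TM Pool.Agent.N92.TH Pool.Agent.N339.BS
open Pool.Agent.N666.VE (primes)

/-- local data for the curves with the coefficients `c` -/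
def GoodL {R : Type} [CommRing R] (k : Type) [Field k] [Algebra R k] (d : ℕ)
    (c : Fin (d + 2) → R) : Prop :=
  algebraMap R k (c 0) ≠ 0 ∧ algebraMap R k (c (Fin.last d).succ) ≠ 0 ∧
    Irreducible (pol fun i : Fin (d + 1) => algebraMap R k (c i.succ)) ∧
    LocData d (algebraMap R k (c 0)) (pol fun i : Fin (d + 1) => algebraMap R k (c i.succ))

/-- for every `B` there are primes with good classes of total density at least `B` -/
theorem supply_L {R k : Type} [CommRing R] [IsDomain R] [CharZero R] [Algebra.FiniteType ℤ R]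
    [Field k] [Algebra R k] [IsFractionRing R k] {J : Type} [Fintype J] [DecidableEq J]
    (e : J → R) (j₀ : J) (he : e j₀ ≠ 0) (d : ℕ) (hd : 3 ≤ d) (B : ℝ) :
    ∃ U : Finset ℕ, (∀ p ∈ U, p.Prime) ∧ ∃ Ω : ∀ p : ℕ, Set (Fin (d + 2) × J → ZMod (p ^ 2)),
      B ≤ ∑ p ∈ U, dens (Ω p) ∧ ∀ p ∈ U, ∀ c : Fin (d + 2) × J → ℤ,
        Pool.Agent.Y722.HS.red (p ^ 2) c ∈ Ω p → GoodL k d (comb e c) := by
  classical
  have hcz : CharZero k := charZero_of_injective_algebraMap (IsFractionRing.injective R k)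
  obtain ⟨L, _, _, P, hPe, hemb⟩ := emb_fg (k := k) (e j₀) he
  obtain ⟨N1, hN1, hemb⟩ := hemb
  obtain ⟨Dr, hDr, hur⟩ := unram_ae L
  -- numerator and denominator of `P (e j₀)`
  obtain ⟨a, b, hb, hab⟩ := IsFractionRing.div_surjective (A := 𝓞 L) (P (e j₀))
  have hb0 : b ≠ 0 := nonZeroDivisors.ne_zero hb
  have ha0 : a ≠ 0 := by
    rintro rfl
    rw [map_zero, zero_div] at hab
    exact hPe hab.symm
  have hD0 : N1 * Dr * 2 * a * b ≠ 0 :=
    mul_ne_zero (mul_ne_zero (mul_ne_zero (mul_ne_zero hN1 hDr) two_ne_zero) ha0) hb0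
  have hd0 : (0 : ℝ) < d := by
    have : 0 < d := by omega
    exact_mod_cast this
  obtain ⟨U, hU, hUB⟩ := primes_deg_one L _ hD0 (8 * d * |B|)
  have hex : ∀ p ∈ U, ∃ Ω : Set (Fin (d + 2) × J → ZMod (p ^ 2)),
      (1 / (4 * d)) * (1 / (p : ℝ) - 1 / (p : ℝ) ^ 2) ≤ dens Ω ∧
      ∀ x : Fin (d + 2) × J → ℤ, Pool.Agent.Y722.HS.red (p ^ 2) x ∈ Ω →
        GoodL k d (comb e x) := by
    intro p hp
    obtain ⟨hpp, v, hvN, hvD⟩ := hU p hp
    have v5 : b ∉ v.asIdeal := fun h => hvD (Ideal.mul_mem_left _ _ h)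
    have v4 : a ∉ v.asIdeal := fun h => hvD (Ideal.mul_mem_right _ _ (Ideal.mul_mem_left _ _ h))
    have v3 : (2 : 𝓞 L) ∉ v.asIdeal := fun h =>
      hvD (Ideal.mul_mem_right _ _ (Ideal.mul_mem_right _ _ (Ideal.mul_mem_left _ _ h)))
    have v2 : Dr ∉ v.asIdeal := fun h => hvD (Ideal.mul_mem_right _ _ (Ideal.mul_mem_right _ _
      (Ideal.mul_mem_right _ _ (Ideal.mul_mem_left _ _ h))))
    have v1 : N1 ∉ v.asIdeal := fun h => hvD (Ideal.mul_mem_right _ _ (Ideal.mul_mem_right _ _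
      (Ideal.mul_mem_right _ _ (Ideal.mul_mem_right _ _ h))))
    obtain ⟨hint, ψ, hψ⟩ := hemb v v1
    obtain ⟨Ω, hΩ1, hΩ2⟩ := exists_omega_y P v hint p hpp hvN (hur v v2 p hpp) e j₀ (by
      rw [← hab, map_div₀, (HeightOneSpectrum.valuation_eq_one_iff_notMem v).2 v4,
        (HeightOneSpectrum.valuation_eq_one_iff_notMem v).2 v5, div_one]) d hd
    refine ⟨Ω, hΩ1, fun x hx => ?_⟩
    obtain ⟨y, hcy, g1, g2, g3⟩ := hΩ2 x hx
    obtain ⟨l0, hl0, hld0⟩ := Nat.exists_prime_and_dvd (show d ≠ 1 by omega)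
    obtain ⟨k1, k2, k3, -⟩ := fine_embR.{0, 0, 0} v P ψ hint hψ v3 hd (comb e x) y hcy g1 g2 g3
      l0 hl0 hld0
    exact ⟨k1, k2, k3, data_embR v P ψ hint hψ v3 (comb e x) y hcy g1 g2 g3⟩
  choose! Ω hΩ1 hΩ2 using hex
  refine ⟨U, fun p hp => (hU p hp).1, Ω, ?_, hΩ2⟩
  have h1 : ∀ p ∈ U, 1 / (8 * d) * (1 / (p : ℝ)) ≤ dens (Ω p) := by
    intro p hp
    refine le_trans ?_ (hΩ1 p hp)
    have hp2 : (2 : ℝ) ≤ p := by exact_mod_cast (hU p hp).1.two_le
    have h3 : 1 / (2 * (p : ℝ)) ≤ 1 / (p : ℝ) - 1 / (p : ℝ) ^ 2 := by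
      rw [div_sub_div _ _ (by positivity) (by positivity),
        div_le_div_iff₀ (by positivity) (by positivity)]
      nlinarith [mul_nonneg (sub_nonneg.mpr hp2) (by positivity : (0 : ℝ) ≤ (p : ℝ) ^ 2)]
    calc 1 / (8 * d) * (1 / (p : ℝ)) = (1 / (4 * d)) * (1 / (2 * (p : ℝ))) := by
          field_simp; norm_num
      _ ≤ _ := mul_le_mul_of_nonneg_left h3 (by positivity)
  calc B ≤ |B| := le_abs_self B
    _ = 1 / (8 * d) * (8 * d * |B|) := by field_simp
    _ ≤ 1 / (8 * d) * ∑ p ∈ U, 1 / (p : ℝ) := mul_le_mul_of_nonneg_left hUB (by positivity)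
    _ = ∑ p ∈ U, 1 / (8 * d) * (1 / (p : ℝ)) := Finset.mul_sum _ _ _
    _ ≤ _ := Finset.sum_le_sum h1

/-- the local data do not depend on the field of fractions -/
theorem locData_transfer {k k' : Type} [Field k] [Field k'] (σ : k ≃+* k') (d : ℕ) (a : k)
    (f : k[X]) (h : LocData d a f) : LocData d (σ a) (f.map (σ : k →+* k')) := by
  obtain ⟨R, _, _, _, _, hfr, g, h1, h2, h3, h4, h5, h6, h7, ϖ, t, m, h8, h9, h10, h11⟩ := h
  let _ : Algebra R k' := ((σ : k →+* k').comp (algebraMap R k)).toAlgebra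
  have hinj : Function.Injective (algebraMap R k') :=
    σ.injective.comp (IsFractionRing.injective R k)
  have hfs : FaithfulSMul R k' := (faithfulSMul_iff_algebraMap_injective R k').2 hinj
  have hfr' : IsFractionRing R k' := by
    refine IsFractionRing.of_field R k' fun z => ?_
    obtain ⟨x, y, hy, hxy⟩ := IsFractionRing.div_surjective (A := R) (σ.symm z)
    refine ⟨x, y, ?_⟩
    change z = σ (algebraMap R k x) / σ (algebraMap R k y)
    rw [← map_div₀, hxy, RingEquiv.apply_symm_apply]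
  refine ⟨R, inferInstance, inferInstance, inferInstance, inferInstance, hfr', g, h1, h2, h3, h4,
    h5, h6, ?_, ϖ, t, m, h8, h9, h10, ?_⟩
  · rw [← h7, Polynomial.map_map]
    rfl
  · rw [h11, map_mul, map_zpow₀]
    rfl

theorem goodL_transfer {R k k' : Type} [CommRing R] [IsDomain R] [Field k] [Field k']
    [Algebra R k] [Algebra R k'] [IsFractionRing R k] [IsFractionRing R k'] (d : ℕ)
    (c : Fin (d + 2) → R) (h : GoodL k d c) : GoodL k' d c := by
  let σ : k ≃ₐ[R] k' := IsLocalization.algEquiv (nonZeroDivisors R) k k'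
  have hσ : ∀ x, σ (algebraMap R k x) = algebraMap R k' x := fun x => σ.commutes x
  obtain ⟨h1, h2, h3, h4⟩ := h
  have hpol : (pol fun i : Fin (d + 1) => algebraMap R k (c i.succ)).map
      (σ.toRingEquiv : k →+* k') = pol fun i : Fin (d + 1) => algebraMap R k' (c i.succ) := by
    rw [pol_map]
    congr 1
    funext i
    exact hσ _
  refine ⟨?_, ?_, ?_, ?_⟩
  · rw [← hσ]
    exact (map_ne_zero_iff _ σ.injective).2 h1
  · rw [← hσ]
    exact (map_ne_zero_iff _ σ.injective).2 h2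
  · rw [← hpol]
    exact (MulEquiv.irreducible_iff (Polynomial.mapEquiv σ.toRingEquiv).toMulEquiv).2 h3
  · have h5 := locData_transfer σ.toRingEquiv d _ _ h4
    rw [hpol] at h5
    have h6 : σ.toRingEquiv (algebraMap R k (c 0)) = algebraMap R k' (c 0) := hσ _
    rwa [h6] at h5

/-- only the images of the coefficients matter -/
theorem goodL_congr {R R' k : Type} [CommRing R] [CommRing R'] [Field k] [Algebra R k]
    [Algebra R' k] (d : ℕ) (c : Fin (d + 2) → R) (c' : Fin (d + 2) → R')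
    (h : ∀ i, algebraMap R k (c i) = algebraMap R' k (c' i)) (hg : GoodL k d c) :
    GoodL k d c' := by
  unfold GoodL at hg ⊢
  simp only [h] at hg
  exact hg

/-- the exceptional set of a code -/
def BadL (F : ℕ → ℕ → Finset ℝ) (a : ℕ → ℕ → ℝ → ℝ) (n m : ℕ) (I : Ideal (MvPolynomial (Fin n) ℤ))
    (e : Fin m → MvPolynomial (Fin n) ℤ) (d : ℕ) : Set ℕ :=
  {t | ∃ (k : Type) (_ : Field k) (_ : CharZero k) (φ : MvPolynomial (Fin n) ℤ →+* k), Gen I φ ∧
    (∃ j, φ (e j) ≠ 0) ∧ 3 ≤ d ∧ ¬ GoodL k d (kvec (fun j => φ (e j)) F a d t)}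

theorem badL_null (F : ℕ → ℕ → Finset ℝ) (a : ℕ → ℕ → ℝ → ℝ) (c : ℕ → ℕ → ℝ)
    (h : ∀ i j, c i j ∈ F i j ∧ (∀ t ∈ F i j, t ≤ c i j) ∧ 0 < c i j ∧ (∀ m : ℕ, c i j ≠ m) ∧
      0 < a i j (c i j))
    (hc : Function.Injective (fun z : ℕ × ℕ => c z.1 z.2)) (n m : ℕ)
    (I : Ideal (MvPolynomial (Fin n) ℤ)) (e : Fin m → MvPolynomial (Fin n) ℤ) (d : ℕ) :
    NullIn (fun N => Ioc N (2 * N)) (BadL F a n m I e d) ∧
      NullIn primes (BadL F a n m I e d) := by
  classical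
  by_cases hex : ∃ (k : Type) (_ : Field k) (_ : CharZero k) (φ : MvPolynomial (Fin n) ℤ →+* k),
      Gen I φ ∧ (∃ j, φ (e j) ≠ 0) ∧ 3 ≤ d
  swap
  · have hE : BadL F a n m I e d ⊆ ∅ := by
      rintro t ⟨k, i1, i2, φ, g1, g2, g3, -⟩
      exact hex ⟨k, i1, i2, φ, g1, g2, g3⟩
    exact ⟨nullIn_mono hE nullIn_empty, nullIn_mono hE nullIn_empty⟩
  obtain ⟨k₀, _, _, φ₀, ⟨hker, hgen⟩, ⟨j₀, hj₀⟩, hd⟩ := hex
  -- the ring
  let R := MvPolynomial (Fin n) ℤ ⧸ I
  have key : ∀ (k : Type) (_ : Field k) (φ : MvPolynomial (Fin n) ℤ →+* k), Gen I φ →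
      ∃ ψ : R →+* k, Function.Injective ψ ∧ (∀ x, ψ (Ideal.Quotient.mk I x) = φ x) ∧
        ∀ z : k, ∃ x y, z = ψ x / ψ y := by
    intro k _ φ ⟨hk, hz⟩
    refine ⟨Ideal.Quotient.lift I φ (fun x hx => by rwa [← hk, RingHom.mem_ker] at hx), ?_,
      fun x => Ideal.Quotient.lift_mk I φ _, ?_⟩
    · rw [injective_iff_map_eq_zero]
      intro x hx
      obtain ⟨x, rfl⟩ := Ideal.Quotient.mk_surjective x
      rw [Ideal.Quotient.lift_mk] at hx
      rw [Ideal.Quotient.eq_zero_iff_mem, ← hk, RingHom.mem_ker]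
      exact hx
    · intro z
      obtain ⟨x, y, hxy⟩ := hz z
      refine ⟨Ideal.Quotient.mk I x, Ideal.Quotient.mk I y, ?_⟩
      rw [Ideal.Quotient.lift_mk, Ideal.Quotient.lift_mk]
      exact hxy
  obtain ⟨ψ₀, hψ₀, hψe, hψg⟩ := key k₀ _ φ₀ ⟨hker, hgen⟩
  have hdom : IsDomain R := hψ₀.isDomain ψ₀
  have hcz : CharZero R := RingHom.charZero ψ₀
  have hft := finType (Ideal.Quotient.mk I) Ideal.Quotient.mk_surjective
  let _ : Algebra R k₀ := ψ₀.toAlgebra
  have hfs : FaithfulSMul R k₀ := (faithfulSMul_iff_algebraMap_injective R k₀).2 hψ₀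
  have hfr : IsFractionRing R k₀ := IsFractionRing.of_field R k₀ hψg
  let e' : Fin m → R := fun j => Ideal.Quotient.mk I (e j)
  have he' : e' j₀ ≠ 0 := by
    intro h0
    apply hj₀
    rw [← hψe, show Ideal.Quotient.mk I (e j₀) = 0 from h0, map_zero]
  obtain ⟨g1, g2⟩ := one_gen e' j₀ (fun i (j : Fin m) => F i j) (fun i (j : Fin m) => a i j)
    (fun i (j : Fin m) => c i j) (fun i j => h i j) (by
      rintro ⟨i, j⟩ ⟨i', j'⟩ hzz
      have h1 := @hc (i, j.val) (i', j'.val) hzz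
      rw [Prod.mk.injEq] at h1 ⊢
      exact ⟨h1.1, Fin.ext h1.2⟩) d (fun c => GoodL k₀ d c)
    (supply_L (k := k₀) e' j₀ he' d hd)
  have hsub : BadL F a n m I e d ⊆
      {t | ¬ GoodL k₀ d (cvec e' (fun i (j : Fin m) => F i j)
        (fun i (j : Fin m) => a i j) d t)} := by
    rintro t ⟨k, _, _, φ, hφ, -, -, hbad⟩ hgood
    apply hbad
    obtain ⟨ψ, hψ, hψe', hψg'⟩ := key k _ φ hφ
    let _ : Algebra R k := ψ.toAlgebra
    have hfs : FaithfulSMul R k := (faithfulSMul_iff_algebraMap_injective R k).2 hψ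
    have hfr : IsFractionRing R k := IsFractionRing.of_field R k hψg'
    refine goodL_congr d _ _ ?_ (goodL_transfer (k := k₀) (k' := k) d _ hgood)
    intro i
    change ψ (∑ j, _ * _) = ∑ j : Fin m, _ * _
    rw [map_sum]
    refine Finset.sum_congr rfl fun j _ => ?_
    rw [map_mul, map_intCast, hψe']
  exact ⟨nullIn_mono hsub g1, nullIn_mono hsub g2⟩

/-- one exceptional set for all finitely generated fields, all elements and all degrees -/
theorem main_L (F : ℕ → ℕ → Finset ℝ) (a : ℕ → ℕ → ℝ → ℝ) (c : ℕ → ℕ → ℝ)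
    (h : ∀ i j, c i j ∈ F i j ∧ (∀ t ∈ F i j, t ≤ c i j) ∧ 0 < c i j ∧ (∀ m : ℕ, c i j ≠ m) ∧
      0 < a i j (c i j))
    (hc : Function.Injective (fun z : ℕ × ℕ => c z.1 z.2)) :
    ∃ E : Set ℕ, NullIn (fun N => Ioc N (2 * N)) E ∧ NullIn primes E ∧
      ∀ (k : Type) [Field k] [CharZero k], (∃ s : Finset k, Subfield.closure (s : Set k) = ⊤) →
        ∀ (m : ℕ) (e : Fin m → k), e ≠ 0 → ∀ d : ℕ, 3 ≤ d →
          {t : ℕ | t ∉ E ∧ ¬ GoodL k d (kvec e F a d t)}.Finite := by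
  classical
  let B : Code → Set ℕ := fun z => BadL F a z.1 z.2.1 z.2.2.1 z.2.2.2.1 z.2.2.2.2
  obtain ⟨E, h1, h2, h3⟩ := diag_countable (fun N => Finset.Subset.refl _)
    (fun N => Finset.filter_subset _ _) B
    (fun z => (badL_null F a c h hc z.1 z.2.1 z.2.2.1 z.2.2.2.1 z.2.2.2.2).1)
    (fun z => (badL_null F a c h hc z.1 z.2.1 z.2.2.1 z.2.2.2.1 z.2.2.2.2).2)
  refine ⟨E, h1, h2, ?_⟩
  intro k _ _ ⟨s, hs⟩ m e he d hd
  -- the generators
  let val : Fin (s.card + m) → k := Fin.append (fun i => (s.equivFin.symm i : k)) e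
  let φ : MvPolynomial (Fin (s.card + m)) ℤ →+* k := (MvPolynomial.aeval (R := ℤ) val).toRingHom
  have hφX : ∀ i, φ (MvPolynomial.X i) = val i := fun i => MvPolynomial.aeval_X val i
  have hφe : ∀ j, φ (MvPolynomial.X (Fin.natAdd s.card j)) = e j := by
    intro j
    rw [hφX]
    exact Fin.append_right _ _ j
  have hcl : ∀ z : k, ∃ x y, z = φ x / φ y := by
    intro z
    have hz : z ∈ Subfield.closure (s : Set k) := by
      rw [hs]
      trivial
    obtain ⟨x, hx, y, hy, hxy⟩ := Subfield.mem_closure_iff.1 hz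
    have hle : Subring.closure (s : Set k) ≤ φ.range := by
      rw [Subring.closure_le]
      intro u hu
      refine ⟨MvPolynomial.X (Fin.castAdd m (s.equivFin ⟨u, hu⟩)), ?_⟩
      rw [hφX]
      change Fin.append _ _ _ = u
      rw [Fin.append_left, Equiv.symm_apply_apply]
    obtain ⟨x', rfl⟩ := hle hx
    obtain ⟨y', rfl⟩ := hle hy
    exact ⟨x', y', hxy.symm⟩
  obtain ⟨j₀, hj₀⟩ : ∃ j, e j ≠ 0 := by
    by_contra hcon
    push Not at hcon
    exact he (funext hcon)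
  refine (h3 ⟨s.card + m, m, RingHom.ker φ, fun j => MvPolynomial.X (Fin.natAdd s.card j),
    d⟩).subset ?_
  rintro t ⟨ht, ht'⟩
  refine ⟨⟨k, inferInstance, inferInstance, φ, ⟨rfl, hcl⟩, ⟨j₀, by rw [hφe]; exact hj₀⟩, hd, ?_⟩,
    ht⟩
  have heq : (fun j => φ (MvPolynomial.X (Fin.natAdd s.card j))) = e := funext hφe
  rw [heq]
  exact ht'

end Pool.Agent.N339.BL
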