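import Pool.Agent.N339.BS.Norm
import Pool.Agent.N339.BL.All

/-!
# Norm-form curves from the local data
-/

set_option autoImplicit false

namespace Pool.Agent.N339.BL

open Polynomial Pool.Agent.TH377.Sup Pool.Agent.N339.BS

universe v w y

/-- the norm-form curves, from the local data -/
theorem normAll_of_data {k : Type} [Field k] [CharZero k] (d : ℕ) (hd : 0 < d) (a : k) (f : k[X])
    (h : LocData d a f) : NormAll.{0, v, w, y} d a f := by
  obtain ⟨R, _, _, _, _, _, g, -, -, h3, h4, h5, h6, rfl, ϖ, t, m, h8, h9, h10, h11⟩ := h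
  exact normAll_of_dvr.{0, v, w, y, 0} g h3 h4 h5 d hd h6 ϖ t h8 h9 m h10 a h11

end Pool.Agent.N339.BL
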