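import Pool.Agent.N24.RW.All
import Pool.Agent.N339.BL.All

/-!
# Random orbits, for the local data
-/

set_option autoImplicit false

namespace Pool.Agent.N339.BL

open Finset Polynomial WithZero NumberField IsDedekindDomain Pool.Agent.W858.SF Pool.Agent.W858.SG
open Pool.Agent.TH377.Sup Pool.Agent.N666.TM Pool.Agent.N92.TH Pool.Agent.N339.BS
open Pool.Agent.N24.RW (ProNull AlmostNever Walk orb words)

/-- the exceptional coordinate vectors are pronull -/
theorem proNull_L {R k : Type} [CommRing R] [IsDomain R] [CharZero R] [Algebra.FiniteType ℤ R]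
    [Field k] [Algebra R k] [IsFractionRing R k] {J : Type} [Fintype J] [DecidableEq J]
    (e : J → R) (j₀ : J) (he : e j₀ ≠ 0) (d : ℕ) (hd : 3 ≤ d) :
    ProNull {x : Fin (d + 2) × J → ℤ | ¬ GoodL k d (comb e x)} := by
  classical
  have hcz : CharZero k := charZero_of_injective_algebraMap (IsFractionRing.injective R k)
  obtain ⟨L, _, _, P, hPe, hemb⟩ := emb_fg (k := k) (e j₀) he
  obtain ⟨N1, hN1, hemb⟩ := hemb
  obtain ⟨Dr, hDr, hur⟩ := unram_ae L
  -- numerator and denominator of `P (e j₀)`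
  obtain ⟨a, b, hb, hab⟩ := IsFractionRing.div_surjective (A := 𝓞 L) (P (e j₀))
  have hb0 : b ≠ 0 := nonZeroDivisors.ne_zero hb
  have ha0 : a ≠ 0 := by
    rintro rfl
    rw [map_zero, zero_div] at hab
    exact hPe hab.symm
  have hD0 : N1 * Dr * 2 * a * b ≠ 0 :=
    mul_ne_zero (mul_ne_zero (mul_ne_zero (mul_ne_zero hN1 hDr) two_ne_zero) ha0) hb0
  have hd0 : (0 : ℝ) < d := by
    have : 0 < d := by omega
    exact_mod_cast this
  let S : Set ℕ := {p | p.Prime ∧ ∃ v : HeightOneSpectrum (𝓞 L), Ideal.absNorm v.asIdeal = p ∧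
    N1 * Dr * 2 * a * b ∉ v.asIdeal}
  have hex : ∀ p ∈ S, ∃ Ω : Set (Fin (d + 2) × J → ZMod (p ^ 2)),
      (1 / (4 * d)) * (1 / (p : ℝ) - 1 / (p : ℝ) ^ 2) ≤ dens Ω ∧
      ∀ x : Fin (d + 2) × J → ℤ, Pool.Agent.Y722.HS.red (p ^ 2) x ∈ Ω →
        GoodL k d (comb e x) := by
    intro p hp
    obtain ⟨hpp, v, hvN, hvD⟩ := hp
    have v5 : b ∉ v.asIdeal := fun h => hvD (Ideal.mul_mem_left _ _ h)
    have v4 : a ∉ v.asIdeal := fun h => hvD (Ideal.mul_mem_right _ _ (Ideal.mul_mem_left _ _ h))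
    have v3 : (2 : 𝓞 L) ∉ v.asIdeal := fun h =>
      hvD (Ideal.mul_mem_right _ _ (Ideal.mul_mem_right _ _ (Ideal.mul_mem_left _ _ h)))
    have v2 : Dr ∉ v.asIdeal := fun h => hvD (Ideal.mul_mem_right _ _ (Ideal.mul_mem_right _ _
      (Ideal.mul_mem_right _ _ (Ideal.mul_mem_left _ _ h))))
    have v1 : N1 ∉ v.asIdeal := fun h => hvD (Ideal.mul_mem_right _ _ (Ideal.mul_mem_right _ _
      (Ideal.mul_mem_right _ _ (Ideal.mul_mem_right _ _ h))))
    obtain ⟨hint, ψ, hψ⟩ := hemb v v1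
    obtain ⟨Ω, hΩ1, hΩ2⟩ := exists_omega_y P v hint p hpp hvN (hur v v2 p hpp) e j₀ (by
      rw [← hab, map_div₀, (HeightOneSpectrum.valuation_eq_one_iff_notMem v).2 v4,
        (HeightOneSpectrum.valuation_eq_one_iff_notMem v).2 v5, div_one]) d hd
    refine ⟨Ω, hΩ1, fun x hx => ?_⟩
    obtain ⟨y, hcy, g1, g2, g3⟩ := hΩ2 x hx
    obtain ⟨l0, hl0, hld0⟩ := Nat.exists_prime_and_dvd (show d ≠ 1 by omega)
    obtain ⟨k1, k2, k3, -⟩ := fine_embR.{0, 0, 0} v P ψ hint hψ v3 hd (comb e x) y hcy g1 g2 g3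
      l0 hl0 hld0
    exact ⟨k1, k2, k3, data_embR v P ψ hint hψ v3 (comb e x) y hcy g1 g2 g3⟩
  choose! Ω hΩ1 hΩ2 using hex
  let Ω' : ∀ p : ℕ, Set (Fin (d + 2) × J → ZMod (p ^ 2)) := fun p => if p ∈ S then Ω p else ∅
  let w : ℕ → ℝ := fun p => if p ∈ S then (1 / (4 * d)) * (1 / (p : ℝ) - 1 / (p : ℝ) ^ 2) else 0
  have hlow : ∀ p ∈ S, 1 / (8 * d) * (1 / (p : ℝ)) ≤
      (1 / (4 * d)) * (1 / (p : ℝ) - 1 / (p : ℝ) ^ 2) := by
    intro p hp
    have hp2 : (2 : ℝ) ≤ p := by exact_mod_cast hp.1.two_le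
    have h3 : 1 / (2 * (p : ℝ)) ≤ 1 / (p : ℝ) - 1 / (p : ℝ) ^ 2 := by
      rw [div_sub_div _ _ (by positivity) (by positivity),
        div_le_div_iff₀ (by positivity) (by positivity)]
      nlinarith [mul_nonneg (sub_nonneg.mpr hp2) (by positivity : (0 : ℝ) ≤ (p : ℝ) ^ 2)]
    calc 1 / (8 * d) * (1 / (p : ℝ)) = (1 / (4 * d)) * (1 / (2 * (p : ℝ))) := by
          field_simp; norm_num
      _ ≤ _ := mul_le_mul_of_nonneg_left h3 (by positivity)
  have hw0 : ∀ p, 0 ≤ w p := by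
    intro p
    by_cases hp : p ∈ S
    · simp only [w, if_pos hp]
      exact le_trans (by positivity) (hlow p hp)
    · simp only [w, if_neg hp, le_refl]
  have hns : ¬ Summable (fun p : ℕ => if p.Prime then w p else 0) := by
    intro hsum
    set B := ∑' p : ℕ, (if p.Prime then w p else 0) with hB
    obtain ⟨U, hU, hUB⟩ := primes_deg_one L _ hD0 (8 * d * (|B| + 1))
    have hle : ∑ p ∈ U, (if p.Prime then w p else 0) ≤ B :=
      hsum.sum_le_tsum U fun p _ => by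
        by_cases hp : p.Prime
        · rw [if_pos hp]; exact hw0 p
        · rw [if_neg hp]
    have hge : |B| + 1 ≤ ∑ p ∈ U, (if p.Prime then w p else 0) := by
      calc |B| + 1 = 1 / (8 * d) * (8 * d * (|B| + 1)) := by field_simp
        _ ≤ 1 / (8 * d) * ∑ p ∈ U, 1 / (p : ℝ) := mul_le_mul_of_nonneg_left hUB (by positivity)
        _ = ∑ p ∈ U, 1 / (8 * d) * (1 / (p : ℝ)) := Finset.mul_sum _ _ _
        _ ≤ _ := Finset.sum_le_sum fun p hp => by
          have hpS : p ∈ S := hU p hp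
          rw [if_pos hpS.1]
          simp only [w, if_pos hpS]
          exact hlow p hpS
    have := le_abs_self B
    linarith
  have hcard : ∀ p, p.Prime → 0 < p → w p * ((p ^ 2 : ℕ) : ℝ) ^ Fintype.card (Fin (d + 2) × J) ≤
      ((Ω' p).ncard : ℝ) := by
    intro p hp _
    by_cases hpS : p ∈ S
    · simp only [w, Ω', if_pos hpS]
      have h1 := hΩ1 p hpS
      unfold Pool.Agent.N666.TM.dens at h1
      have hp0 : (0 : ℝ) < p := by exact_mod_cast hp.pos
      rwa [le_div_iff₀ (by push_cast; positivity)] at h1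
    · simp only [w, Ω', if_neg hpS, zero_mul]
      positivity
  have h1 := Pool.Agent.N24.RW.crit (Fin (d + 2) × J) (fun p => p ^ 2)
    (fun p hp => Nat.one_le_pow _ _ hp.pos)
    (fun p p' hp hp' hne => Nat.Coprime.pow 2 2 ((Nat.coprime_primes hp hp').mpr hne)) Ω' 0 w hw0
    hns hcard
  refine (Pool.Agent.N24.RW.clo (Fin (d + 2) × J)).1 _ _ ?_ h1
  intro x hx p hp _ hmem
  by_cases hpS : p ∈ S
  · simp only [Ω', if_pos hpS] at hmem
    exact hx (hΩ2 p hpS x hmem)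
  · simp only [Ω', if_neg hpS] at hmem
    exact hmem

/-! ### all finitely generated fields -/

/-- the coefficients -/
def ovec {k : Type} [Field k] {m : ℕ} (e : Fin m → k) {d : ℕ} (x : Fin (d + 2) × Fin m → ℤ) :
    Fin (d + 2) → k :=
  fun i => ∑ j : Fin m, (x (i, j) : k) * e j

/-- the exceptional set of a code -/
def BadO (d n m : ℕ) (I : Ideal (MvPolynomial (Fin n) ℤ)) (e : Fin m → MvPolynomial (Fin n) ℤ) :
    Set (Fin (d + 2) × Fin m → ℤ) :=
  {x | ∃ (k : Type) (_ : Field k) (_ : CharZero k) (φ : MvPolynomial (Fin n) ℤ →+* k), Gen I φ ∧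
    (∃ j, φ (e j) ≠ 0) ∧ ¬ GoodL k d (ovec (fun j => φ (e j)) x)}

theorem badO_null (d n m : ℕ) (hd : 3 ≤ d) (hm : 0 < m) (I : Ideal (MvPolynomial (Fin n) ℤ))
    (e : Fin m → MvPolynomial (Fin n) ℤ) : ProNull (BadO d n m I e) := by
  classical
  have hne : Nonempty (Fin (d + 2) × Fin m) := ⟨(0, ⟨0, hm⟩)⟩
  have hclo := Pool.Agent.N24.RW.clo (Fin (d + 2) × Fin m)
  by_cases hex : ∃ (k : Type) (_ : Field k) (_ : CharZero k) (φ : MvPolynomial (Fin n) ℤ →+* k),
      Gen I φ ∧ (∃ j, φ (e j) ≠ 0)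
  swap
  · have hE : BadO d n m I e ⊆ ∅ := by
      rintro t ⟨k, i1, i2, φ, g1, g2, -⟩
      exact hex ⟨k, i1, i2, φ, g1, g2⟩
    exact hclo.1 _ _ hE (hclo.2.2.1 hne _ Set.finite_empty)
  obtain ⟨k₀, _, _, φ₀, ⟨hker, hgen⟩, ⟨j₀, hj₀⟩⟩ := hex
  -- the ring
  let R := MvPolynomial (Fin n) ℤ ⧸ I
  have key : ∀ (k : Type) (_ : Field k) (φ : MvPolynomial (Fin n) ℤ →+* k), Gen I φ →
      ∃ ψ : R →+* k, Function.Injective ψ ∧ (∀ x, ψ (Ideal.Quotient.mk I x) = φ x) ∧
        ∀ z : k, ∃ x y, z = ψ x / ψ y := by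
    intro k _ φ ⟨hk, hz⟩
    refine ⟨Ideal.Quotient.lift I φ (fun x hx => by rwa [← hk, RingHom.mem_ker] at hx), ?_,
      fun x => Ideal.Quotient.lift_mk I φ _, ?_⟩
    · rw [injective_iff_map_eq_zero]
      intro x hx
      obtain ⟨x, rfl⟩ := Ideal.Quotient.mk_surjective x
      rw [Ideal.Quotient.lift_mk] at hx
      rw [Ideal.Quotient.eq_zero_iff_mem, ← hk, RingHom.mem_ker]
      exact hx
    · intro z
      obtain ⟨x, y, hxy⟩ := hz z
      refine ⟨Ideal.Quotient.mk I x, Ideal.Quotient.mk I y, ?_⟩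
      rw [Ideal.Quotient.lift_mk, Ideal.Quotient.lift_mk]
      exact hxy
  obtain ⟨ψ₀, hψ₀, hψe, hψg⟩ := key k₀ _ φ₀ ⟨hker, hgen⟩
  have hdom : IsDomain R := hψ₀.isDomain ψ₀
  have hcz : CharZero R := RingHom.charZero ψ₀
  have hft := finType (Ideal.Quotient.mk I) Ideal.Quotient.mk_surjective
  let _ : Algebra R k₀ := ψ₀.toAlgebra
  have hfs : FaithfulSMul R k₀ := (faithfulSMul_iff_algebraMap_injective R k₀).2 hψ₀
  have hfr : IsFractionRing R k₀ := IsFractionRing.of_field R k₀ hψg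
  let e' : Fin m → R := fun j => Ideal.Quotient.mk I (e j)
  have he' : e' j₀ ≠ 0 := by
    intro h0
    apply hj₀
    rw [← hψe, show Ideal.Quotient.mk I (e j₀) = 0 from h0, map_zero]
  refine hclo.1 _ _ ?_ (proNull_L (k := k₀) e' j₀ he' d hd)
  rintro x ⟨k, _, _, φ, hφ, -, hbad⟩ hgood
  apply hbad
  obtain ⟨ψ, hψ, hψe', hψg'⟩ := key k _ φ hφ
  let _ : Algebra R k := ψ.toAlgebra
  have hfs : FaithfulSMul R k := (faithfulSMul_iff_algebraMap_injective R k).2 hψ
  have hfr : IsFractionRing R k := IsFractionRing.of_field R k hψg'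
  refine goodL_congr d _ _ ?_ (goodL_transfer (k := k₀) (k' := k) d _ hgood)
  intro i
  change ψ (∑ j, _ * _) = ∑ j : Fin m, _ * _
  rw [map_sum]
  refine Finset.sum_congr rfl fun j _ => ?_
  rw [map_mul, map_intCast, hψe']

/-- every finitely generated field with elements has a code -/
theorem exists_code {k : Type} [Field k] (hk : ∃ s : Finset k, Subfield.closure (s : Set k) = ⊤)
    {m : ℕ} (e : Fin m → k) : ∃ (n : ℕ) (I : Ideal (MvPolynomial (Fin n) ℤ))
      (e' : Fin m → MvPolynomial (Fin n) ℤ) (φ : MvPolynomial (Fin n) ℤ →+* k), Gen I φ ∧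
      (fun j => φ (e' j)) = e := by
  classical
  obtain ⟨s, hs⟩ := hk
  let val : Fin (s.card + m) → k := Fin.append (fun i => (s.equivFin.symm i : k)) e
  let φ : MvPolynomial (Fin (s.card + m)) ℤ →+* k := (MvPolynomial.aeval (R := ℤ) val).toRingHom
  have hφX : ∀ i, φ (MvPolynomial.X i) = val i := fun i => MvPolynomial.aeval_X val i
  have hφe : ∀ j, φ (MvPolynomial.X (Fin.natAdd s.card j)) = e j := by
    intro j
    rw [hφX]
    exact Fin.append_right _ _ j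
  refine ⟨s.card + m, RingHom.ker φ, fun j => MvPolynomial.X (Fin.natAdd s.card j), φ, ⟨rfl, ?_⟩,
    funext hφe⟩
  intro z
  have hz : z ∈ Subfield.closure (s : Set k) := by
    rw [hs]
    trivial
  obtain ⟨x, hx, y, hy, hxy⟩ := Subfield.mem_closure_iff.1 hz
  have hle : Subring.closure (s : Set k) ≤ φ.range := by
    rw [Subring.closure_le]
    intro u hu
    refine ⟨MvPolynomial.X (Fin.castAdd m (s.equivFin ⟨u, hu⟩)), ?_⟩
    rw [hφX]
    change Fin.append _ _ _ = u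
    rw [Fin.append_left, Equiv.symm_apply_apply]
  obtain ⟨x', rfl⟩ := hle hx
  obtain ⟨y', rfl⟩ := hle hy
  exact ⟨x', y', hxy.symm⟩

/-- **pronull sets**: for one finitely generated field -/
theorem pro_L {k : Type} [Field k] [CharZero k]
    (hk : ∃ s : Finset k, Subfield.closure (s : Set k) = ⊤) {m : ℕ} (e : Fin m → k) (he : e ≠ 0)
    (d : ℕ) (hd : 3 ≤ d) :
    ProNull {x : Fin (d + 2) × Fin m → ℤ | ¬ GoodL k d (ovec e x)} := by
  obtain ⟨n, I, e', φ, hφ, rfl⟩ := exists_code hk e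
  obtain ⟨j₀, hj₀⟩ : ∃ j, φ (e' j) ≠ 0 := by
    by_contra hcon
    push Not at hcon
    exact he (funext hcon)
  refine (Pool.Agent.N24.RW.clo (Fin (d + 2) × Fin m)).1 _ _ ?_
    (badO_null d n m hd (lt_of_le_of_lt (Nat.zero_le _) j₀.2) I e')
  intro x hx
  exact ⟨k, inferInstance, inferInstance, φ, hφ, ⟨j₀, hj₀⟩, hx⟩

/-- **random orbits**: all finitely generated fields and all elements at once -/
theorem almost_L (d m : ℕ) (hd : 3 ≤ d) (W : Walk (Fin (d + 2) × Fin m))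
    (v : Fin (d + 2) × Fin m → ℤ) (hv : v ≠ 0) :
    ∀ᵐ w ∂(words W.m), ∀ (k : Type) [Field k] [CharZero k],
      (∃ s : Finset k, Subfield.closure (s : Set k) = ⊤) → ∀ e : Fin m → k, e ≠ 0 →
        Filter.Tendsto (fun N : ℕ =>
          ({n : ℕ | n < N ∧ ¬ GoodL k d (ovec e (orb W v w n))}.ncard : ℝ) / (N : ℝ))
          Filter.atTop (nhds 0) := by
  classical
  have hm : 0 < m := by
    by_contra hm
    apply hv
    have hm0 : m = 0 := by omega
    subst hm0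
    funext x
    exact x.2.elim0
  have hcard : 2 ≤ Fintype.card (Fin (d + 2) × Fin m) := by
    rw [Fintype.card_prod, Fintype.card_fin, Fintype.card_fin]
    nlinarith
  have hall : ∀ᵐ w ∂(words W.m), ∀ z : (Σ n : ℕ, Ideal (MvPolynomial (Fin n) ℤ) ×
      (Fin m → MvPolynomial (Fin n) ℤ)),
      Filter.Tendsto (fun N : ℕ =>
        (({n : ℕ | n < N ∧ orb W v w n ∈ BadO d z.1 m z.2.1 z.2.2}.ncard : ℕ) : ℝ) / (N : ℝ))
        Filter.atTop (nhds 0) := by
    rw [MeasureTheory.ae_all_iff]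
    intro z
    exact Pool.Agent.N24.RW.main _ hcard W v hv _ (badO_null d z.1 m hd hm z.2.1 z.2.2)
  filter_upwards [hall] with w hw
  intro k _ _ hk e he
  obtain ⟨n, I, e', φ, hφ, rfl⟩ := exists_code hk e
  obtain ⟨j₀, hj₀⟩ : ∃ j, φ (e' j) ≠ 0 := by
    by_contra hcon
    push Not at hcon
    exact he (funext hcon)
  refine squeeze_zero (fun N => by positivity) (fun N => ?_) (hw ⟨n, I, e'⟩)
  have hsub : {i : ℕ | i < N ∧ ¬ GoodL k d (ovec (fun j => φ (e' j)) (orb W v w i))} ⊆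
      {i : ℕ | i < N ∧ orb W v w i ∈ BadO d n m I e'} := by
    rintro i ⟨hi, hi'⟩
    exact ⟨hi, k, inferInstance, inferInstance, φ, hφ, ⟨j₀, hj₀⟩, hi'⟩
  have hfin : {i : ℕ | i < N ∧ orb W v w i ∈ BadO d n m I e'}.Finite :=
    (Set.finite_lt_nat N).subset fun i hi => hi.1
  have h1 : ({i : ℕ | i < N ∧ ¬ GoodL k d (ovec (fun j => φ (e' j)) (orb W v w i))}.ncard : ℝ) ≤
      ({i : ℕ | i < N ∧ orb W v w i ∈ BadO d n m I e'}.ncard : ℝ) := by
    exact_mod_cast Set.ncard_le_ncard hsub hfin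
  exact div_le_div_of_nonneg_right h1 (Nat.cast_nonneg N)

end Pool.Agent.N339.BL
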